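import Pool.Agent.H53.GM.Targets2

/-!
# Forbidden coloured patterns, row GL2: the parts of a piece are pieces
-/

set_option autoImplicit false

namespace Pool.Agent.H3.GM

open Pool.Agent.H68.BP Pool.Agent.H58.SF Pool.Agent.H53.GC Pool.Agent.H53.GR Pool.Agent.H53.GM
open Classical

/-- **Row GL2.** -/
theorem pf_GL2 : Pool.Agent.H53.GM.T_GL2 := by
  intro τ N W I J J' Mi B K M D f ρ _ hBK hM hMB hf hρ hρK i ρ' hρ' S hS hat
  by_contra hcon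
  push Not at hcon
  obtain ⟨v, ⟨hvS, hvB⟩, hv⟩ := hρ {v | v ∈ S ∧ f v ∈ B i} (by
    rintro l z hz ⟨a, haS, haB⟩
    obtain ⟨j, hj⟩ := hM l _ (hf l z hz)
    by_cases hij : i = j
    · subst hij
      exact fun b => ⟨hS l z ⟨hz, hj⟩ ⟨a, haS⟩ b, hMB i l _ hj b⟩
    · exact absurd (hcon _ haS) (hρ' _ (hBK i j _ haB (hMB j l _ hj a) hij) haB)) (by
    obtain ⟨l, z, ⟨hz, hzi⟩, hzS⟩ := hat
    exact ⟨l, z, hz, fun b => ⟨hzS b, hMB i l _ hzi b⟩⟩)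
  exact hρ' v (hρK v hv) hvB (hcon v hvS)

end Pool.Agent.H3.GM
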